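import Pool.Agent.Helper80.HL.BRc

set_option autoImplicit false

namespace Pool.Agent.Helper80.HL

open Finset
open Pool.Agent.Helper7.HL Pool.Agent.Helper32.HG

theorem fo_head_mem (i j : ℕ) (hj : j ≠ i) (hj1 : j ≠ i + 1) (b : List (Finset ℕ))
    (x y : Finset ℕ) (hx : b.head? = some x) (hy : (fo i b).head? = some y) :
    (j ∈ x ↔ j ∈ y) := by
  cases b with
  | nil => simp at hx
  | cons c b =>
    simp only [List.head?_cons, Option.some.injEq] at hx
    subst hx
    unfold fo at hy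
    split_ifs at hy with h
    · simp only [List.head?_cons, Option.some.injEq] at hy
      rw [hy]
    · simp only [List.head?_cons, Option.some.injEq] at hy
      rw [← hy]
      simp [hj, hj1]

theorem eo_head_mem (i j : ℕ) (hj : j ≠ i) (hj1 : j ≠ i + 1) (b : List (Finset ℕ))
    (x y : Finset ℕ) (hx : b.head? = some x) (hy : (eo i b).head? = some y) :
    (j ∈ x ↔ j ∈ y) := by
  cases b with
  | nil => simp at hx
  | cons c b =>
    simp only [List.head?_cons, Option.some.injEq] at hx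
    subst hx
    unfold eo at hy
    split_ifs at hy with h
    · simp only [List.head?_cons, Option.some.injEq] at hy
      rw [hy]
    · simp only [List.head?_cons, Option.some.injEq] at hy
      rw [← hy]
      simp [hj, hj1]

theorem strg_LL (h1 : ST_BL1) (h2 : ST_BL2) (N i p : ℕ) (cs : List ℕ) (b : List (Finset ℕ))
    (hi : i + 1 < N) (hcs : Dec cs) (hb : b ∈ tl N cs) (hp : p ≤ phi i b + eps i b)
    (r j : ℕ) (x y : Finset ℕ) (hj : j ≠ i) (hj1 : j ≠ i + 1) (hx : (LL N b)[r]? = some x)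
    (hy : (LL N (strg i p b))[r]? = some y) : (j ∈ x ↔ j ∈ y) := by
  have hr : r < cs.length := by
    rw [← tl_length N cs b hb, ← LL_length N b]
    exact (List.getElem?_eq_some_iff.mp hx).1
  have key := strg_ind h1 i p (fun z => z ∈ tl N cs ∧ ∃ w, (LL N z)[r]? = some w ∧
    (j ∈ x ↔ j ∈ w)) ?_ ?_ b ⟨hb, x, hx, Iff.rfl⟩ hp
  · obtain ⟨_, w, hw, hw2⟩ := key
    rw [hw] at hy
    rw [← Option.some.inj hy]
    exact hw2
  · rintro z ⟨hz, w, hw, hw2⟩ h
    have h0 : 0 < phi i z := by omega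
    have hfz := ((h1 i z).2.1 h0).2.2.2.2.2.2 N cs hi hz
    refine ⟨hfz, ?_⟩
    have ha := h2 N i r cs z hi hcs hz hr
    have hb' := h2 N i r cs (fo i z) hi hcs hfz hr
    rw [ha.2.2.2.1 h0] at hb'
    have hlen : r < (LL N (fo i z)).length := by
      rw [LL_length, tl_length N cs _ hfz]
      exact hr
    refine ⟨(LL N (fo i z))[r], List.getElem?_eq_getElem hlen, ?_⟩
    rw [hw2]
    refine fo_head_mem i j hj hj1 (mv N r z) w _ (by rw [ha.1, hw]) ?_
    rw [hb'.1]
    exact List.getElem?_eq_getElem hlen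
  · rintro z ⟨hz, w, hw, hw2⟩ _ h0
    have hfz := ((h1 i z).2.2 h0).2.2.2.2.2.2 N cs hi hz
    refine ⟨hfz, ?_⟩
    have ha := h2 N i r cs z hi hcs hz hr
    have hb' := h2 N i r cs (eo i z) hi hcs hfz hr
    rw [ha.2.2.2.2 h0] at hb'
    have hlen : r < (LL N (eo i z)).length := by
      rw [LL_length, tl_length N cs _ hfz]
      exact hr
    refine ⟨(LL N (eo i z))[r], List.getElem?_eq_getElem hlen, ?_⟩
    rw [hw2]
    refine eo_head_mem i j hj hj1 (mv N r z) w _ (by rw [ha.1, hw]) ?_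
    rw [hb'.1]
    exact List.getElem?_eq_getElem hlen

theorem st_BR0 (h1 : ST_BL1) (h2 : ST_BL2) (h3 : ST_BL3) : ST_BR0 := by
  intro N i cs b hi hcs hb
  have hw := (h1 i b).1
  have hp : eps i b ≤ phi i b + eps i b := by omega
  rw [rf0_eq]
  refine ⟨strg_tl h1 N i _ cs b hi hb hp, ?_, ?_, ?_, strg_wj h1 i _ b hp,
    strg_DD h1 h3 N i _ cs b hi hcs hb hp, ?_⟩
  · have h5 := strg_eps h1 i _ b hp
    have h6 : eps i (strg i (eps i b) b) = phi i b := by omega
    rw [rf0_eq, h6, strg_strg h1 i _ _ b hp, strg_self]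
  · have h5 := strg_wi h1 i _ b hp
    omega
  · have h5 := strg_wi1 h1 i _ b hp
    omega
  · intro r j x y hj hj1 hx hy
    exact strg_LL h1 h2 N i _ cs b hi hcs hb hp r j x y hj hj1 hx hy

end Pool.Agent.Helper80.HL
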