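import Pool.Agent.Helper80.HL.BRc

set_option autoImplicit false

namespace Pool.Agent.Helper80.HL

open Finset
open Pool.Agent.Helper7.HL Pool.Agent.Helper32.HG

theorem fo_append (i : ℕ) (y : List (Finset ℕ)) (hy : phi i y = 0) :
    ∀ b1 : List (Finset ℕ), 0 < phi i (b1 ++ y) →
      ∃ b2 : List (Finset ℕ), b2.length = b1.length ∧ fo i (b1 ++ y) = b2 ++ y
  | [], h => by
    rw [List.nil_append, hy] at h
    omega
  | c :: b1, h => by
    rw [List.cons_append] at h ⊢
    unfold fo
    split_ifs with h2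
    · obtain ⟨b2, hb2, hb3⟩ := fo_append i y hy b1 (by omega)
      refine ⟨c :: b2, by rw [List.length_cons, List.length_cons, hb2], ?_⟩
      rw [hb3, List.cons_append]
    · exact ⟨insert (i + 1) (c.erase i) :: b1, rfl, rfl⟩

theorem eo_append (i : ℕ) (y : List (Finset ℕ)) (hy : eps i y = 1) :
    ∀ b1 : List (Finset ℕ), 1 < eps i (b1 ++ y) →
      ∃ b2 : List (Finset ℕ), b2.length = b1.length ∧ eo i (b1 ++ y) = b2 ++ y
  | [], h => by
    rw [List.nil_append, hy] at h
    omega
  | c :: b1, h => by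
    rw [List.cons_append] at h ⊢
    unfold eo
    split_ifs with h2
    · unfold eps at h
      obtain ⟨b2, hb2, hb3⟩ := eo_append i y hy b1 (by omega)
      refine ⟨c :: b2, by rw [List.length_cons, List.length_cons, hb2], ?_⟩
      rw [hb3, List.cons_append]
    · exact ⟨insert i (c.erase (i + 1)) :: b1, rfl, rfl⟩

theorem st_BRM (h1 : ST_BL1) (h3 : ST_BL3) : ST_BRM := by
  intro N i cs b hi hcs hb heps
  have hw := (h1 i b).1
  have hp : eps i b - 1 ≤ phi i b + eps i b := by omega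
  rw [rfm_eq i b heps]
  have h5 := strg_eps h1 i _ b hp
  refine ⟨strg_tl h1 N i _ cs b hi hb hp, by omega, ?_, ?_, ?_, strg_wj h1 i _ b hp,
    strg_DD h1 h3 N i _ cs b hi hcs hb hp, ?_⟩
  · have h6 : eps i (strg i (eps i b - 1) b) - 1 = phi i b := by omega
    rw [rfm_eq i _ (by omega), h6, strg_strg h1 i _ _ b hp, strg_self]
  · have h5 := strg_wi h1 i _ b hp
    omega
  · have h5 := strg_wi1 h1 i _ b hp
    omega
  · intro b1 y hby hphi hepsy
    have key := strg_ind h1 i (eps i b - 1) (fun z => phi i z + eps i z = phi i b + eps i b ∧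
      ∃ b2 : List (Finset ℕ), b2.length = b1.length ∧ z = b2 ++ y) ?_ ?_ b
      ⟨rfl, b1, rfl, hby⟩ hp
    · exact key.2
    · rintro z ⟨hz, b2, hb2, hz2⟩ h
      have h4 := phi_fo h1 (i := i) (b := z) (by omega)
      have h5 := eps_fo h1 (i := i) (b := z) (by omega)
      refine ⟨by omega, ?_⟩
      obtain ⟨b4, hb4, hb5⟩ := fo_append i y hphi b2 (by rw [← hz2]; omega)
      exact ⟨b4, by omega, by rw [hz2, hb5]⟩
    · rintro z ⟨hz, b2, hb2, hz2⟩ hlt h
      have h4 := phi_eo h1 h
      have h5 := eps_eo h1 h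
      refine ⟨by omega, ?_⟩
      obtain ⟨b4, hb4, hb5⟩ := eo_append i y hepsy b2 (by rw [← hz2]; omega)
      exact ⟨b4, by omega, by rw [hz2, hb5]⟩

end Pool.Agent.Helper80.HL
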