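import Pool.Agent.Helper80.HL.BRc

set_option autoImplicit false

namespace Pool.Agent.Helper80.HL

open Finset
open Pool.Agent.Helper7.HL Pool.Agent.Helper32.HG

theorem e1_zero (i : ℕ) (x : Finset ℕ) (h : i + 1 ∉ x) : e1 i x = 0 := by
  unfold e1
  rw [if_neg (fun h' => h h'.1)]

theorem p1_one (i : ℕ) (x : Finset ℕ) (h0 : i ∈ x) (h : i + 1 ∉ x) : p1 i x = 1 := by
  unfold p1
  rw [if_pos ⟨h0, h⟩]

theorem fo_head_same (i : ℕ) (b : List (Finset ℕ)) (x : Finset ℕ) (h0 : i ∈ x)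
    (h : i + 1 ∉ x) (hx : b.head? = some x) (hphi : 1 < phi i b) :
    (fo i b).head? = some x := by
  cases b with
  | nil => simp at hx
  | cons c b =>
    simp only [List.head?_cons, Option.some.injEq] at hx
    subst hx
    unfold phi at hphi
    rw [e1_zero i c h, p1_one i c h0 h] at hphi
    unfold fo
    rw [e1_zero i c h, if_pos (by omega)]
    rfl

theorem eo_head_same (i : ℕ) (b : List (Finset ℕ)) (x : Finset ℕ)
    (h : i + 1 ∉ x) (hx : b.head? = some x) :
    (eo i b).head? = some x := by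
  cases b with
  | nil => simp at hx
  | cons c b =>
    simp only [List.head?_cons, Option.some.injEq] at hx
    subst hx
    unfold eo
    rw [e1_zero i c h, if_pos (by omega)]
    rfl

theorem strg_LL1 (h1 : ST_BL1) (h2 : ST_BL2) (N i p : ℕ) (cs : List ℕ) (b : List (Finset ℕ))
    (hi : i + 1 < N) (hcs : Dec cs) (hb : b ∈ tl N cs) (hp : p ≤ phi i b + eps i b)
    (hp1 : 1 ≤ p) (r : ℕ) (x : Finset ℕ) (hx : (LL N b)[r]? = some x) (h0 : i ∈ x)
    (hn : i + 1 ∉ x) : (LL N (strg i p b))[r]? = some x := by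
  have hr : r < cs.length := by
    rw [← tl_length N cs b hb, ← LL_length N b]
    exact (List.getElem?_eq_some_iff.mp hx).1
  have key := strg_ind h1 i p (fun z => z ∈ tl N cs ∧ (LL N z)[r]? = some x) ?_ ?_ b
    ⟨hb, hx⟩ hp
  · exact key.2
  · rintro z ⟨hz, hw⟩ h
    have h0' : 0 < phi i z := by omega
    have hfz := ((h1 i z).2.1 h0').2.2.2.2.2.2 N cs hi hz
    refine ⟨hfz, ?_⟩
    have ha := h2 N i r cs z hi hcs hz hr
    have hb' := h2 N i r cs (fo i z) hi hcs hfz hr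
    rw [ha.2.2.2.1 h0'] at hb'
    rw [← hb'.1]
    refine fo_head_same i (mv N r z) x h0 hn (by rw [ha.1, hw]) ?_
    rw [ha.2.1]
    omega
  · rintro z ⟨hz, hw⟩ _ h0'
    have hfz := ((h1 i z).2.2 h0').2.2.2.2.2.2 N cs hi hz
    refine ⟨hfz, ?_⟩
    have ha := h2 N i r cs z hi hcs hz hr
    have hb' := h2 N i r cs (eo i z) hi hcs hfz hr
    rw [ha.2.2.2.2 h0'] at hb'
    rw [← hb'.1]
    exact eo_head_same i (mv N r z) x hn (by rw [ha.1, hw])

theorem st_BRP (h1 : ST_BL1) (h2 : ST_BL2) (h3 : ST_BL3) : ST_BRP := by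
  intro N i cs b hi hcs hb hphi
  have hw := (h1 i b).1
  have hp : eps i b + 1 ≤ phi i b + eps i b := by omega
  rw [rfp_eq]
  have h5 := strg_eps h1 i _ b hp
  refine ⟨strg_tl h1 N i _ cs b hi hb hp, ?_, ?_, ?_, ?_, strg_wj h1 i _ b hp,
    strg_DD h1 h3 N i _ cs b hi hcs hb hp, ?_⟩
  · rw [strg_phi h1 i _ b hp]
    omega
  · have h6 : eps i (strg i (eps i b + 1) b) + 1 = phi i b := by omega
    rw [rfp_eq, h6, strg_strg h1 i _ _ b hp, strg_self]
  · have h5 := strg_wi h1 i _ b hp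
    omega
  · have h5 := strg_wi1 h1 i _ b hp
    omega
  · intro r x hx h0 hn
    exact strg_LL1 h1 h2 N i _ cs b hi hcs hb hp (by omega) r x hx h0 hn

end Pool.Agent.Helper80.HL
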