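import Pool.Agent.Helper80.HL.BRc

set_option autoImplicit false

namespace Pool.Agent.Helper80.HL

open Finset MvPolynomial
open Pool.Agent.Helper7.HL Pool.Agent.Helper32.HG

theorem rename_mono {n : ℕ} {S : Type} [CommRing S] (σ : Equiv.Perm (Fin n)) (w : Fin n → ℕ)
    (c : S) : rename σ (monomial (ex w) c) = monomial (ex (fun j => w (σ.symm j))) c := by
  have h : Finsupp.mapDomain σ (ex w) = ex (fun j => w (σ.symm j)) := by
    ext j
    rw [Finsupp.mapDomain_equiv_apply]
    rfl
  rw [rename_monomial, h]

theorem FB_swap (h : ST_BR0) (n : ℕ) (cs : List ℕ) (hcs : Dec cs) (i : Fin n) :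
    rename (Equiv.swap i.castSucc i.succ) (FB (n + 1) cs) = FB (n + 1) cs := by
  unfold FB
  rw [map_sum]
  have hi : i.val + 1 < n + 1 := by have := i.isLt; omega
  refine Finset.sum_nbij' (fun b => rf0 i.val b) (fun b => rf0 i.val b) ?_ ?_ ?_ ?_ ?_
  · intro b hb
    exact (h (n + 1) i.val cs b hi hcs hb).1
  · intro b hb
    exact (h (n + 1) i.val cs b hi hcs hb).1
  · intro b hb
    exact (h (n + 1) i.val cs b hi hcs hb).2.1
  · intro b hb
    exact (h (n + 1) i.val cs b hi hcs hb).2.1
  · intro b hb
    obtain ⟨_, _, h3, h4, h5, h6, _⟩ := h (n + 1) i.val cs b hi hcs hb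
    rw [rename_mono, h6]
    congr 2
    congr 1
    funext j
    rw [Equiv.symm_swap]
    by_cases hj : j = i.castSucc
    · rw [hj, Equiv.swap_apply_left]
      exact h3.symm
    · by_cases hj1 : j = i.succ
      · rw [hj1, Equiv.swap_apply_right]
        exact h4.symm
      · rw [Equiv.swap_apply_of_ne_of_ne hj hj1]
        refine (h5 j.val ?_ ?_).symm
        · intro he
          exact hj (Fin.ext he)
        · intro he
          exact hj1 (Fin.ext he)

theorem st_BS1 (h : ST_BR0) : ST_BS1 := by
  intro N cs hcs σ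
  cases N with
  | zero =>
    have : σ = 1 := Subsingleton.elim _ _
    rw [this]
    simp
  | succ n =>
    have hσ : σ ∈ (⊤ : Submonoid (Equiv.Perm (Fin (n + 1)))) := Submonoid.mem_top _
    rw [← Equiv.Perm.mclosure_swap_castSucc_succ n] at hσ
    induction hσ using Submonoid.closure_induction with
    | mem x hx =>
      obtain ⟨i, rfl⟩ := hx
      exact FB_swap h n cs hcs i
    | one => simp
    | mul x y _ _ hx hy =>
      have : (rename (x * y) (FB (n + 1) cs)) = rename x (rename y (FB (n + 1) cs)) := by
        rw [rename_rename]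
        rfl
      rw [this, hy, hx]

end Pool.Agent.Helper80.HL
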