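import Pool.Agent.Helper7.HL.Stmts

set_option autoImplicit false

namespace Pool.Agent.Helper80.HL

open Finset
open Pool.Agent.Helper7.HL Pool.Agent.Helper32.HG

/-- the element of the string of `b` with `phi = p` -/
def strg (i p : ℕ) (b : List (Finset ℕ)) : List (Finset ℕ) :=
  if p ≤ phi i b then (fo i)^[phi i b - p] b else (eo i)^[p - phi i b] b

theorem rf0_eq (i : ℕ) (b : List (Finset ℕ)) : rf0 i b = strg i (eps i b) b := rfl

theorem rfp_eq (i : ℕ) (b : List (Finset ℕ)) : rfp i b = strg i (eps i b + 1) b := rfl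

theorem rfm_eq (i : ℕ) (b : List (Finset ℕ)) (h : 0 < eps i b) :
    rfm i b = strg i (eps i b - 1) b := by
  unfold rfm strg
  by_cases h1 : eps i b ≤ phi i b + 1
  · have h2 : eps i b - 1 ≤ phi i b := by omega
    rw [if_pos h1, if_pos h2]
    congr 1
    omega
  · have h2 : ¬ eps i b - 1 ≤ phi i b := by omega
    rw [if_neg h1, if_neg h2]
    congr 1
    omega

section
variable (h1 : ST_BL1)
include h1

theorem phi_fo {i : ℕ} {b : List (Finset ℕ)} (h : 0 < phi i b) :
    phi i (fo i b) + 1 = phi i b := ((h1 i b).2.1 h).2.1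

theorem phi_eo {i : ℕ} {b : List (Finset ℕ)} (h : 0 < eps i b) :
    phi i (eo i b) = phi i b + 1 := ((h1 i b).2.2 h).2.1

theorem eps_fo {i : ℕ} {b : List (Finset ℕ)} (h : 0 < phi i b) :
    eps i (fo i b) = eps i b + 1 := ((h1 i b).2.1 h).2.2.1

theorem eps_eo {i : ℕ} {b : List (Finset ℕ)} (h : 0 < eps i b) :
    eps i (eo i b) + 1 = eps i b := ((h1 i b).2.2 h).2.2.1

theorem eo_fo {i : ℕ} {b : List (Finset ℕ)} (h : 0 < phi i b) :
    eo i (fo i b) = b := ((h1 i b).2.1 h).1

theorem fo_eo {i : ℕ} {b : List (Finset ℕ)} (h : 0 < eps i b) :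
    fo i (eo i b) = b := ((h1 i b).2.2 h).1

/-- induction along a string -/
theorem strg_ind (i p : ℕ) (P : List (Finset ℕ) → Prop)
    (hf : ∀ b, P b → p < phi i b → P (fo i b))
    (he : ∀ b, P b → phi i b < p → 0 < eps i b → P (eo i b))
    (b : List (Finset ℕ)) (hb : P b) (hp : p ≤ phi i b + eps i b) : P (strg i p b) := by
  unfold strg
  split_ifs with h
  · obtain ⟨m, hm⟩ : ∃ m, phi i b - p = m := ⟨_, rfl⟩
    rw [hm]
    clear hp
    induction m generalizing b with
    | zero => exact hb
    | succ m ih =>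
      rw [Function.iterate_succ_apply]
      have h3 : p < phi i b := by omega
      have h4 := phi_fo h1 (i := i) (b := b) (by omega)
      exact ih (fo i b) (hf b hb h3) (by omega) (by omega)
  · obtain ⟨m, hm⟩ : ∃ m, p - phi i b = m := ⟨_, rfl⟩
    rw [hm]
    have hme : phi i b + m = p := by omega
    clear hm h
    induction m generalizing b with
    | zero => exact hb
    | succ m ih =>
      rw [Function.iterate_succ_apply]
      have h4 := phi_eo h1 (i := i) (b := b) (by omega)
      have h5 := eps_eo h1 (i := i) (b := b) (by omega)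
      exact ih (eo i b) (he b hb (by omega) (by omega)) (by omega) (by omega)

theorem strg_fo (i p : ℕ) (b : List (Finset ℕ)) (h : 0 < phi i b) :
    strg i p (fo i b) = strg i p b := by
  have h4 := phi_fo h1 h
  unfold strg
  by_cases h5 : p ≤ phi i (fo i b)
  · have h6 : p ≤ phi i b := by omega
    rw [if_pos h5, if_pos h6, ← Function.iterate_succ_apply]
    congr 1
    omega
  · rw [if_neg h5]
    by_cases h6 : p ≤ phi i b
    · rw [if_pos h6]
      have h7 : p - phi i (fo i b) = 1 := by omega
      have h8 : phi i b - p = 0 := by omega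
      rw [h7, h8, Function.iterate_one, Function.iterate_zero, id_eq, eo_fo h1 h]
    · rw [if_neg h6]
      have h7 : p - phi i (fo i b) = (p - phi i b) + 1 := by omega
      rw [h7, Function.iterate_succ_apply, eo_fo h1 h]

theorem strg_eo (i p : ℕ) (b : List (Finset ℕ)) (h : 0 < eps i b) :
    strg i p (eo i b) = strg i p b := by
  have h4 := phi_eo h1 h
  have h5 := strg_fo h1 i p (eo i b) (by omega)
  rw [fo_eo h1 h] at h5
  exact h5.symm

theorem strg_strg (i p q : ℕ) (b : List (Finset ℕ)) (hp : p ≤ phi i b + eps i b) :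
    strg i q (strg i p b) = strg i q b := by
  refine strg_ind h1 i p (fun x => strg i q x = strg i q b) ?_ ?_ b rfl hp
  · intro x hx h
    rw [strg_fo h1 i q x (by omega)]
    exact hx
  · intro x hx _ h
    rw [strg_eo h1 i q x h]
    exact hx

omit h1 in
theorem strg_self (i : ℕ) (b : List (Finset ℕ)) : strg i (phi i b) b = b := by
  unfold strg
  simp

theorem strg_sum (i p : ℕ) (b : List (Finset ℕ)) (hp : p ≤ phi i b + eps i b) :
    phi i (strg i p b) + eps i (strg i p b) = phi i b + eps i b := by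
  refine strg_ind h1 i p (fun x => phi i x + eps i x = phi i b + eps i b) ?_ ?_ b rfl hp
  · intro x hx h
    have h4 := phi_fo h1 (i := i) (b := x) (by omega)
    have h5 := eps_fo h1 (i := i) (b := x) (by omega)
    omega
  · intro x hx _ h
    have h4 := phi_eo h1 h
    have h5 := eps_eo h1 h
    omega

theorem strg_phi (i p : ℕ) (b : List (Finset ℕ)) (hp : p ≤ phi i b + eps i b) :
    phi i (strg i p b) = p := by
  unfold strg
  split_ifs with h
  · obtain ⟨m, hm⟩ : ∃ m, phi i b - p = m := ⟨_, rfl⟩
    rw [hm]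
    clear hp
    induction m generalizing b with
    | zero =>
      rw [Function.iterate_zero, id_eq]
      omega
    | succ m ih =>
      rw [Function.iterate_succ_apply]
      have h4 := phi_fo h1 (i := i) (b := b) (by omega)
      exact ih (fo i b) (by omega) (by omega)
  · obtain ⟨m, hm⟩ : ∃ m, p - phi i b = m := ⟨_, rfl⟩
    rw [hm]
    have hme : phi i b + m = p := by omega
    clear hm h
    induction m generalizing b with
    | zero =>
      rw [Function.iterate_zero, id_eq]
      omega
    | succ m ih =>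
      rw [Function.iterate_succ_apply]
      have h4 := phi_eo h1 (i := i) (b := b) (by omega)
      have h5 := eps_eo h1 (i := i) (b := b) (by omega)
      exact ih (eo i b) (by omega) (by omega)

theorem strg_eps (i p : ℕ) (b : List (Finset ℕ)) (hp : p ≤ phi i b + eps i b) :
    eps i (strg i p b) + p = phi i b + eps i b := by
  have h2 := strg_sum h1 i p b hp
  have h3 := strg_phi h1 i p b hp
  omega

theorem strg_tl (N i p : ℕ) (cs : List ℕ) (b : List (Finset ℕ)) (hi : i + 1 < N)
    (hb : b ∈ tl N cs) (hp : p ≤ phi i b + eps i b) : strg i p b ∈ tl N cs := by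
  refine strg_ind h1 i p (fun x => x ∈ tl N cs) ?_ ?_ b hb hp
  · intro x hx h
    exact ((h1 i x).2.1 (by omega)).2.2.2.2.2.2 N cs hi hx
  · intro x hx _ h
    exact ((h1 i x).2.2 h).2.2.2.2.2.2 N cs hi hx

theorem strg_wi (i p : ℕ) (b : List (Finset ℕ)) (hp : p ≤ phi i b + eps i b) :
    wtc (strg i p b) i + phi i b = wtc b i + p := by
  have h2 : wtc (strg i p b) i + phi i b = wtc b i + phi i (strg i p b) := by
    refine strg_ind h1 i p (fun x => wtc x i + phi i b = wtc b i + phi i x) ?_ ?_ b rfl hp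
    · intro x hx h
      have h4 := phi_fo h1 (i := i) (b := x) (by omega)
      have h5 := ((h1 i x).2.1 (by omega)).2.2.2.1
      omega
    · intro x hx _ h
      have h4 := phi_eo h1 h
      have h5 := ((h1 i x).2.2 h).2.2.2.1
      omega
  rw [strg_phi h1 i p b hp] at h2
  exact h2

theorem strg_wi1 (i p : ℕ) (b : List (Finset ℕ)) (hp : p ≤ phi i b + eps i b) :
    wtc (strg i p b) (i + 1) + p = wtc b (i + 1) + phi i b := by
  have h2 : wtc (strg i p b) (i + 1) + phi i (strg i p b) = wtc b (i + 1) + phi i b := by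
    refine strg_ind h1 i p (fun x => wtc x (i + 1) + phi i x = wtc b (i + 1) + phi i b) ?_ ?_
      b rfl hp
    · intro x hx h
      have h4 := phi_fo h1 (i := i) (b := x) (by omega)
      have h5 := ((h1 i x).2.1 (by omega)).2.2.2.2.1
      omega
    · intro x hx _ h
      have h4 := phi_eo h1 h
      have h5 := ((h1 i x).2.2 h).2.2.2.2.1
      omega
  rw [strg_phi h1 i p b hp] at h2
  exact h2

theorem strg_wj (i p : ℕ) (b : List (Finset ℕ)) (hp : p ≤ phi i b + eps i b) :
    ∀ j, j ≠ i → j ≠ i + 1 → wtc (strg i p b) j = wtc b j := by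
  intro j hj hj1
  refine strg_ind h1 i p (fun x => wtc x j = wtc b j) ?_ ?_ b rfl hp
  · intro x hx h
    rw [((h1 i x).2.1 (by omega)).2.2.2.2.2.1 j hj hj1]
    exact hx
  · intro x hx _ h
    rw [((h1 i x).2.2 h).2.2.2.2.2.1 j hj hj1]
    exact hx

theorem strg_DD (h3 : ST_BL3) (N i p : ℕ) (cs : List ℕ) (b : List (Finset ℕ)) (hi : i + 1 < N)
    (hcs : Dec cs) (hb : b ∈ tl N cs) (hp : p ≤ phi i b + eps i b) :
    DD N (strg i p b) = DD N b := by
  have := strg_ind h1 i p (fun x => x ∈ tl N cs ∧ DD N x = DD N b) ?_ ?_ b ⟨hb, rfl⟩ hp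
  · exact this.2
  · intro x hx h
    refine ⟨((h1 i x).2.1 (by omega)).2.2.2.2.2.2 N cs hi hx.1, ?_⟩
    rw [(h3 N i cs x hi hcs hx.1).1 (by omega)]
    exact hx.2
  · intro x hx _ h
    refine ⟨((h1 i x).2.2 h).2.2.2.2.2.2 N cs hi hx.1, ?_⟩
    rw [(h3 N i cs x hi hcs hx.1).2 h]
    exact hx.2

end

theorem tl_length (N : ℕ) : ∀ (cs : List ℕ) (b : List (Finset ℕ)), b ∈ tl N cs →
    b.length = cs.length
  | [], b, h => by
    simp only [tl, Finset.mem_singleton] at h
    rw [h]
    rfl
  | k :: cs, b, h => by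
    simp only [tl, Finset.mem_image, Finset.mem_product] at h
    obtain ⟨p, hp, rfl⟩ := h
    rw [List.length_cons, List.length_cons, tl_length N cs p.2 hp.2]

theorem LL_length (N : ℕ) : ∀ b : List (Finset ℕ), (LL N b).length = b.length
  | [] => rfl
  | c :: b => by
    rw [LL, List.length_cons, List.length_map, LL_length N b, List.length_cons]

end Pool.Agent.Helper80.HL
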